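import Mathlib
import Pool.Agent.Helper50.Rec.Defs
import Pool.Agent.Helper50.Rec.Basic

/-! REC-13a: van der Corput's k-th derivative test, qualitative form. -/

open MeasureTheory Polynomial Finset Filter Topology
open scoped BigOperators ComplexConjugate

namespace Pool.Agent.Helper50.Rec

namespace ExpSum

/-- change of variables in integer interval sums -/
lemma sum_Icc_shift (a b c : ℤ) (F : ℤ → ℂ) :
    ∑ m ∈ Icc (a + c) (b + c), F m = ∑ n ∈ Icc a b, F (n + c) := by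
  rw [← Finset.map_add_right_Icc, Finset.sum_map]
  simp

/-- van der Corput inequality on an integer interval with shifts `j * D` -/
lemma vdc_int (a b : ℤ) (f : ℤ → ℂ) (hf : ∀ n, ‖f n‖ ≤ 1) (J D : ℕ) (hJ : 1 ≤ J) (T : ℝ)
    (hT : 0 ≤ T)
    (hcorr : ∀ j : ℕ, 1 ≤ j → j < J →
      ‖∑ n ∈ Icc a (b - (j : ℤ) * D), f (n + (j : ℤ) * D) * conj (f n)‖ ≤ T) :
    ‖∑ n ∈ Icc a b, f n‖ ^ 2 ≤
      (((Icc a b).card : ℝ) + J * D) * (((Icc a b).card : ℝ) / J + T) := by
  classical
  set z : ℤ → ℂ := fun n => if n ∈ Icc a b then f n else 0 with hz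
  set W : Finset ℤ := Icc a (b + (J : ℤ) * D) with hW
  set S : ℂ := ∑ n ∈ Icc a b, f n with hS
  have hznorm : ∀ n, ‖z n‖ ≤ 1 := by
    intro n
    simp only [hz]
    split_ifs
    · exact hf n
    · simp
  -- (1)
  have h1 : ∀ j ∈ range J, ∑ m ∈ W, z (m - (j : ℤ) * D) = S := by
    intro j hj
    have hj' : j < J := mem_range.1 hj
    have hjD : (j : ℤ) * D ≤ (J : ℤ) * D := by
      have : (j : ℤ) ≤ J := by exact_mod_cast hj'.le
      exact mul_le_mul_of_nonneg_right this (by positivity)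
    have hjD0 : 0 ≤ (j : ℤ) * D := by positivity
    have hsub : Icc (a + (j : ℤ) * D) (b + (j : ℤ) * D) ⊆ W := by
      intro m hm
      rw [mem_Icc] at hm
      rw [hW, mem_Icc]
      constructor <;> linarith [hm.1, hm.2]
    rw [← Finset.sum_subset hsub, sum_Icc_shift]
    · rw [hS]
      apply Finset.sum_congr rfl
      intro n hn
      simp only [hz, add_sub_cancel_right, if_pos hn]
    · intro m _ hm
      simp only [hz]
      rw [if_neg]
      intro h
      apply hm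
      rw [mem_Icc] at h ⊢
      constructor <;> linarith [h.1, h.2]
  have h2 : (J : ℂ) * S = ∑ m ∈ W, ∑ j ∈ range J, z (m - (j : ℤ) * D) := by
    rw [Finset.sum_comm, Finset.sum_congr rfl h1]
    simp
  -- correlations
  have hsame : ∀ j ∈ range J, ‖∑ m ∈ W, z (m - (j : ℤ) * D) * conj (z (m - (j : ℤ) * D))‖
      ≤ ((Icc a b).card : ℝ) := by
    intro j hj
    have hj' : j < J := mem_range.1 hj
    have hjD : (j : ℤ) * D ≤ (J : ℤ) * D := by
      have : (j : ℤ) ≤ J := by exact_mod_cast hj'.le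
      exact mul_le_mul_of_nonneg_right this (by positivity)
    have hjD0 : 0 ≤ (j : ℤ) * D := by positivity
    have hsub : Icc (a + (j : ℤ) * D) (b + (j : ℤ) * D) ⊆ W := by
      intro m hm
      rw [mem_Icc] at hm
      rw [hW, mem_Icc]
      constructor <;> linarith [hm.1, hm.2]
    rw [← Finset.sum_subset hsub, sum_Icc_shift]
    · refine (norm_sum_le _ _).trans ?_
      refine (Finset.sum_le_card_nsmul _ _ 1 ?_).trans (by simp)
      intro n _
      rw [norm_mul, RCLike.norm_conj]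
      have := hznorm (n + (j : ℤ) * D - (j : ℤ) * D)
      nlinarith [norm_nonneg (z (n + (j : ℤ) * D - (j : ℤ) * D))]
    · intro m _ hm
      have : z (m - (j : ℤ) * D) = 0 := by
        simp only [hz]
        rw [if_neg]
        intro h
        apply hm
        rw [mem_Icc] at h ⊢
        constructor <;> linarith [h.1, h.2]
      rw [this]; simp
  have hlt : ∀ j ∈ range J, ∀ j' ∈ range J, j < j' →
      ‖∑ m ∈ W, z (m - (j : ℤ) * D) * conj (z (m - (j' : ℤ) * D))‖ ≤ T := by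
    intro j hj j' hj' hjj
    have hj1 : j < J := mem_range.1 hj
    have hj2 : j' < J := mem_range.1 hj'
    have hjD : (j : ℤ) * D ≤ (j' : ℤ) * D := by
      have : (j : ℤ) ≤ j' := by exact_mod_cast hjj.le
      exact mul_le_mul_of_nonneg_right this (by positivity)
    have hjD' : (j' : ℤ) * D ≤ (J : ℤ) * D := by
      have : (j' : ℤ) ≤ J := by exact_mod_cast hj2.le
      exact mul_le_mul_of_nonneg_right this (by positivity)
    have hjD0 : 0 ≤ (j : ℤ) * D := by positivity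
    have hsub : Icc (a + (j' : ℤ) * D) ((b - ((j' - j : ℕ) : ℤ) * D) + (j' : ℤ) * D) ⊆ W := by
      intro m hm
      rw [mem_Icc] at hm
      rw [hW, mem_Icc]
      have e1 : ((j' - j : ℕ) : ℤ) = (j' : ℤ) - j := by push_cast [hjj.le]; ring
      rw [e1] at hm
      constructor <;> nlinarith [hm.1, hm.2]
    rw [← Finset.sum_subset hsub, sum_Icc_shift]
    · refine le_trans (le_of_eq ?_) (hcorr (j' - j) (by omega) (by omega))
      congr 1
      apply Finset.sum_congr rfl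
      intro n hn
      rw [mem_Icc] at hn
      have e1 : ((j' - j : ℕ) : ℤ) = (j' : ℤ) - j := by push_cast [hjj.le]; ring
      rw [e1] at hn ⊢
      have hm1 : n + (j' : ℤ) * D - (j : ℤ) * D ∈ Icc a b := by
        rw [mem_Icc]; constructor <;> nlinarith [hn.1, hn.2]
      have hm2 : n + (j' : ℤ) * D - (j' : ℤ) * D ∈ Icc a b := by
        rw [mem_Icc]; constructor <;> nlinarith [hn.1, hn.2]
      simp only [hz]
      rw [if_pos hm1, if_pos hm2]
      congr 2
      · ring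
      · ring_nf
    · intro m _ hm
      by_cases hA : m - (j : ℤ) * D ∈ Icc a b
      · by_cases hB : m - (j' : ℤ) * D ∈ Icc a b
        · exfalso
          apply hm
          have e1 : ((j' - j : ℕ) : ℤ) = (j' : ℤ) - j := by push_cast [hjj.le]; ring
          rw [mem_Icc] at hA hB ⊢
          rw [e1]
          constructor <;> nlinarith [hA.1, hA.2, hB.1, hB.2]
        · simp only [hz]; rw [if_neg hB]; simp
      · simp only [hz]; rw [if_neg hA]; simp
  have hne : ∀ j ∈ range J, ∀ j' ∈ range J, j ≠ j' →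
      ‖∑ m ∈ W, z (m - (j : ℤ) * D) * conj (z (m - (j' : ℤ) * D))‖ ≤ T := by
    intro j hj j' hj' hjj
    rcases lt_or_gt_of_ne hjj with h | h
    · exact hlt j hj j' hj' h
    · have := hlt j' hj' j hj h
      rw [← RCLike.norm_conj, map_sum] at this
      refine le_trans (le_of_eq ?_) this
      congr 1
      apply Finset.sum_congr rfl
      intro m _
      rw [map_mul, Complex.conj_conj, mul_comm]
  -- sum of squares
  have h3 : ∑ m ∈ W, ‖∑ j ∈ range J, z (m - (j : ℤ) * D)‖ ^ 2 ≤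
      (J : ℝ) * ((Icc a b).card : ℝ) + (J : ℝ) ^ 2 * T := by
    have e1 : ((∑ m ∈ W, ‖∑ j ∈ range J, z (m - (j : ℤ) * D)‖ ^ 2 : ℝ) : ℂ) =
        ∑ j ∈ range J, ∑ j' ∈ range J,
          ∑ m ∈ W, z (m - (j : ℤ) * D) * conj (z (m - (j' : ℤ) * D)) := by
      have : ∀ m, ((‖∑ j ∈ range J, z (m - (j : ℤ) * D)‖ ^ 2 : ℝ) : ℂ) =
          ∑ j ∈ range J, ∑ j' ∈ range J, z (m - (j : ℤ) * D) * conj (z (m - (j' : ℤ) * D)) := by
        intro m
        rw [← Finset.sum_mul_sum, ← map_sum, Complex.mul_conj, Complex.normSq_eq_norm_sq]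
      push_cast at this ⊢
      rw [Finset.sum_congr rfl (fun m _ => this m), Finset.sum_comm]
      apply Finset.sum_congr rfl
      intro j _
      rw [Finset.sum_comm]
    have e2 : (∑ m ∈ W, ‖∑ j ∈ range J, z (m - (j : ℤ) * D)‖ ^ 2 : ℝ) =
        ‖∑ j ∈ range J, ∑ j' ∈ range J,
          ∑ m ∈ W, z (m - (j : ℤ) * D) * conj (z (m - (j' : ℤ) * D))‖ := by
      rw [← e1, Complex.norm_real, Real.norm_eq_abs, abs_of_nonneg]
      exact Finset.sum_nonneg (fun _ _ => by positivity)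
    rw [e2]
    have e3 : ∀ j ∈ range J, ‖∑ j' ∈ range J,
          ∑ m ∈ W, z (m - (j : ℤ) * D) * conj (z (m - (j' : ℤ) * D))‖ ≤
          ((Icc a b).card : ℝ) + J * T := by
      intro j hj
      refine (norm_sum_le _ _).trans ?_
      rw [← Finset.add_sum_erase _ _ hj]
      apply add_le_add (hsame j hj)
      refine (Finset.sum_le_card_nsmul _ _ T ?_).trans ?_
      · intro j' hj'
        rw [mem_erase] at hj'
        exact hne j hj j' hj'.2 (Ne.symm hj'.1)
      · rw [nsmul_eq_mul]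
        apply mul_le_mul_of_nonneg_right _ hT
        have := Finset.card_erase_le (s := range J) (a := j)
        rw [card_range] at this
        exact_mod_cast this
    refine (norm_sum_le _ _).trans ((Finset.sum_le_sum e3).trans (le_of_eq ?_))
    rw [Finset.sum_const, card_range, nsmul_eq_mul]
    ring
  -- Cauchy-Schwarz
  have h4 : ((J : ℝ) * ‖S‖) ^ 2 ≤ (W.card : ℝ) *
      ∑ m ∈ W, ‖∑ j ∈ range J, z (m - (j : ℤ) * D)‖ ^ 2 := by
    have : (J : ℝ) * ‖S‖ ≤ ∑ m ∈ W, ‖∑ j ∈ range J, z (m - (j : ℤ) * D)‖ := by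
      have h5 : (J : ℝ) * ‖S‖ = ‖(J : ℂ) * S‖ := by rw [norm_mul]; simp
      rw [h5, h2]
      exact norm_sum_le _ _
    refine (pow_le_pow_left₀ (by positivity) this 2).trans ?_
    exact sq_sum_le_card_mul_sum_sq
  have hWcard : (W.card : ℝ) ≤ ((Icc a b).card : ℝ) + J * D := by
    have : W.card ≤ (Icc a b).card + J * D := by
      rw [hW, Int.card_Icc, Int.card_Icc]
      have : ((J : ℤ) * D) = ((J * D : ℕ) : ℤ) := by push_cast; ring
      rw [this]
      omega
    exact_mod_cast this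
  have hJ0 : (0 : ℝ) < J := by exact_mod_cast hJ
  have h6 : ((J : ℝ) * ‖S‖) ^ 2 ≤ (((Icc a b).card : ℝ) + J * D) *
      ((J : ℝ) * ((Icc a b).card : ℝ) + (J : ℝ) ^ 2 * T) :=
    h4.trans (mul_le_mul hWcard h3 (Finset.sum_nonneg (fun _ _ => by positivity)) (by positivity))
  have h7 : (((Icc a b).card : ℝ) + J * D) *
      ((J : ℝ) * ((Icc a b).card : ℝ) + (J : ℝ) ^ 2 * T) =
      (J : ℝ) ^ 2 * ((((Icc a b).card : ℝ) + J * D) * (((Icc a b).card : ℝ) / J + T)) := by
    field_simp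
  rw [h7, mul_pow] at h6
  exact le_of_mul_le_mul_left h6 (by positivity)

/-- Abel summation with a monotone nonnegative bounded weight -/
lemma abel_bound (b : ℕ → ℝ) (E : ℕ → ℂ) (N : ℕ) (B : ℝ) (hB : 0 ≤ B) (hE : ∀ n, ‖E n‖ ≤ 1)
    (hb0 : ∀ n < N, 0 ≤ b n) (hbB : ∀ n < N, b n ≤ B)
    (hmono : (∀ n, n + 1 < N → b n ≤ b (n + 1)) ∨ (∀ n, n + 1 < N → b (n + 1) ≤ b n)) :
    ‖∑ n ∈ range N, (b n : ℂ) * (E (n + 1) - E n)‖ ≤ 3 * B := by
  rcases N with _ | N
  · simp; linarith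
  have hid : ∀ N : ℕ, ∑ n ∈ range (N + 1), (b n : ℂ) * (E (n + 1) - E n) =
      (b N : ℂ) * E (N + 1) - (b 0 : ℂ) * E 0 -
        ∑ n ∈ range N, ((b (n + 1) - b n : ℝ) : ℂ) * E (n + 1) := by
    intro N
    induction N with
    | zero => simp; ring
    | succ N ih =>
      rw [Finset.sum_range_succ, ih, Finset.sum_range_succ _ N]
      push_cast
      ring
  rw [hid]
  have hTV : ‖∑ n ∈ range N, ((b (n + 1) - b n : ℝ) : ℂ) * E (n + 1)‖ ≤ B := by
    have hstep : ‖∑ n ∈ range N, ((b (n + 1) - b n : ℝ) : ℂ) * E (n + 1)‖ ≤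
        ∑ n ∈ range N, |b (n + 1) - b n| := by
      refine (norm_sum_le _ _).trans (Finset.sum_le_sum ?_)
      intro n _
      rw [norm_mul, Complex.norm_real, Real.norm_eq_abs]
      exact mul_le_of_le_one_right (abs_nonneg _) (hE _)
    refine hstep.trans ?_
    have hbN := hbB N (by omega)
    have hb0N := hb0 N (by omega)
    have hb00 := hb0 0 (by omega)
    have hbB0 := hbB 0 (by omega)
    rcases hmono with h | h
    · have : ∑ n ∈ range N, |b (n + 1) - b n| = ∑ n ∈ range N, (b (n + 1) - b n) := by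
        apply Finset.sum_congr rfl
        intro n hn
        rw [mem_range] at hn
        exact abs_of_nonneg (by linarith [h n (by omega)])
      rw [this, Finset.sum_range_sub]
      linarith
    · have : ∑ n ∈ range N, |b (n + 1) - b n| = ∑ n ∈ range N, (b n - b (n + 1)) := by
        apply Finset.sum_congr rfl
        intro n hn
        rw [mem_range] at hn
        rw [abs_of_nonpos (by linarith [h n (by omega)])]
        ring
      rw [this, Finset.sum_range_sub']
      linarith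
  have h1 : ‖(b N : ℂ) * E (N + 1)‖ ≤ B := by
    rw [norm_mul, Complex.norm_real, Real.norm_eq_abs, abs_of_nonneg (hb0 N (by omega))]
    have := hbB N (by omega)
    have h0 := hb0 N (by omega)
    nlinarith [hE (N + 1), norm_nonneg (E (N + 1))]
  have h2 : ‖(b 0 : ℂ) * E 0‖ ≤ B := by
    rw [norm_mul, Complex.norm_real, Real.norm_eq_abs, abs_of_nonneg (hb0 0 (by omega))]
    have := hbB 0 (by omega)
    have h0 := hb0 0 (by omega)
    nlinarith [hE 0, norm_nonneg (E 0)]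
  calc _ ≤ ‖(b N : ℂ) * E (N + 1) - (b 0 : ℂ) * E 0‖ +
        ‖∑ n ∈ range N, ((b (n + 1) - b n : ℝ) : ℂ) * E (n + 1)‖ := norm_sub_le _ _
    _ ≤ (‖(b N : ℂ) * E (N + 1)‖ + ‖(b 0 : ℂ) * E 0‖) + B := add_le_add (norm_sub_le _ _) hTV
    _ ≤ 3 * B := by linarith

/-- the base case: discrete first derivative test, increments small, monotone -/
lemma base_seq (a : ℕ → ℝ) (N : ℕ) (lam Λ : ℝ) (hlam : 0 < lam) (hΛ : Λ ≤ 1 / 7)
    (hd : ∀ n < N, lam ≤ a (n + 1) - a n ∧ a (n + 1) - a n ≤ Λ)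
    (hmono : (∀ n, n + 1 < N → a (n + 1) - a n ≤ a (n + 2) - a (n + 1)) ∨
      (∀ n, n + 1 < N → a (n + 2) - a (n + 1) ≤ a (n + 1) - a n)) :
    ‖∑ n ∈ range N, ec (a n)‖ ≤ 1 / lam + N * (7 * Λ) := by
  set d : ℕ → ℝ := fun n => a (n + 1) - a n with hdef
  have hpi := Real.pi_gt_three
  have hpi' := Real.pi_lt_d2
  have hterm : ∀ n ∈ range N, ec (a n) =
      (2 * Real.pi * Complex.I)⁻¹ * ((((d n)⁻¹ : ℝ) : ℂ) * (ec (a (n + 1)) - ec (a n))) -
      (2 * Real.pi * Complex.I)⁻¹ * ((((d n)⁻¹ : ℝ) : ℂ) *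
        ((ec (d n) - 1 - 2 * Real.pi * d n * Complex.I) * ec (a n))) := by
    intro n hn
    rw [mem_range] at hn
    have hd0 : 0 < d n := lt_of_lt_of_le hlam (hd n hn).1
    have h1 : ec (a (n + 1)) = ec (d n) * ec (a n) := by
      rw [← ec_add]; congr 1; simp [hdef]
    rw [h1]
    have hd0' : (d n : ℂ) ≠ 0 := by exact_mod_cast hd0.ne'
    have hpi0 : (Real.pi : ℂ) ≠ 0 := by exact_mod_cast Real.pi_ne_zero
    push_cast
    field_simp
    ring
  rw [Finset.sum_congr rfl hterm, Finset.sum_sub_distrib, ← Finset.mul_sum]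
  have hA : ‖(2 * Real.pi * Complex.I)⁻¹ *
      ∑ n ∈ range N, (((d n)⁻¹ : ℝ) : ℂ) * (ec (a (n + 1)) - ec (a n))‖ ≤ 1 / lam := by
    have h1 := abel_bound (fun n => (d n)⁻¹) (fun n => ec (a n)) N (1 / lam) (by positivity)
      (fun n => (norm_ec _).le)
      (fun n hn => inv_nonneg.2 (hlam.le.trans (hd n hn).1))
      (fun n hn => by
        rw [one_div]
        exact inv_anti₀ hlam (hd n hn).1)
      (by
        rcases hmono with h | h
        · right
          intro n hn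
          exact inv_anti₀ (lt_of_lt_of_le hlam (hd n (by omega)).1) (h n hn)
        · left
          intro n hn
          exact inv_anti₀ (lt_of_lt_of_le hlam (hd (n + 1) (by omega)).1) (h n hn))
    rw [norm_mul]
    have h2 : ‖(2 * (Real.pi : ℂ) * Complex.I)⁻¹‖ ≤ 1 / 6 := by
      rw [norm_inv, norm_mul, norm_mul, Complex.norm_I, Complex.norm_real, Real.norm_eq_abs,
        abs_of_pos Real.pi_pos]
      simp only [Complex.norm_ofNat, mul_one]
      rw [one_div]
      exact inv_anti₀ (by norm_num) (by linarith)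
    calc _ ≤ 1 / 6 * (3 * (1 / lam)) := mul_le_mul h2 h1 (norm_nonneg _) (by norm_num)
      _ ≤ 1 / lam := by
        have : 0 < 1 / lam := by positivity
        linarith
  have hB : ‖∑ n ∈ range N, (2 * Real.pi * Complex.I)⁻¹ * ((((d n)⁻¹ : ℝ) : ℂ) *
        ((ec (d n) - 1 - 2 * Real.pi * d n * Complex.I) * ec (a n)))‖ ≤ N * (7 * Λ) := by
    refine (norm_sum_le _ _).trans ((Finset.sum_le_card_nsmul _ _ (7 * Λ) ?_).trans (by simp))
    intro n hn
    rw [mem_range] at hn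
    have hd0 : 0 < d n := lt_of_lt_of_le hlam (hd n hn).1
    have hdΛ : d n ≤ Λ := (hd n hn).2
    have hx : ‖(2 * Real.pi * d n * Complex.I : ℂ)‖ = 2 * Real.pi * d n := by
      rw [norm_mul, norm_mul, norm_mul, Complex.norm_I, Complex.norm_real, Complex.norm_real,
        Real.norm_eq_abs, Real.norm_eq_abs, abs_of_pos Real.pi_pos, abs_of_pos hd0]
      simp
    have hx1 : ‖(2 * Real.pi * d n * Complex.I : ℂ)‖ ≤ 1 := by
      rw [hx]; nlinarith
    have h3 := Complex.norm_exp_sub_one_sub_id_le hx1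
    rw [hx] at h3
    have h4 : ‖ec (d n) - 1 - 2 * Real.pi * d n * Complex.I‖ ≤ (2 * Real.pi * d n) ^ 2 := h3
    rw [norm_mul, norm_mul, norm_mul, norm_ec, mul_one, norm_inv, norm_mul, norm_mul,
      Complex.norm_I, Complex.norm_real, Complex.norm_real, Real.norm_eq_abs, Real.norm_eq_abs,
      abs_of_pos Real.pi_pos, abs_of_pos (inv_pos.2 hd0)]
    simp only [Complex.norm_ofNat, mul_one]
    calc (2 * Real.pi)⁻¹ * ((d n)⁻¹ * ‖ec (d n) - 1 - 2 * Real.pi * d n * Complex.I‖)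
        ≤ (2 * Real.pi)⁻¹ * ((d n)⁻¹ * (2 * Real.pi * d n) ^ 2) := by
          apply mul_le_mul_of_nonneg_left _ (by positivity)
          exact mul_le_mul_of_nonneg_left h4 (by positivity)
      _ = 2 * Real.pi * d n := by field_simp
      _ ≤ 7 * Λ := by nlinarith
  exact (norm_sub_le _ _).trans (add_le_add hA hB)

/-- the property proved by induction -/
def Prop' (k : ℕ) (C ε δ : ℝ) : Prop :=
  ∀ (g : ℕ → ℝ → ℝ) (u v lam : ℝ), 0 < lam → lam ≤ δ → u < v →
      1 ≤ δ * (lam * (v - u) ^ k) →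
      (∀ i ≤ k, ∀ x ∈ Set.Icc u v, HasDerivAt (g i) (g (i + 1) x) x) →
      ((∀ x ∈ Set.Icc u v, 0 ≤ g (k + 1) x) ∨ (∀ x ∈ Set.Icc u v, g (k + 1) x ≤ 0)) →
      (∀ x ∈ Set.Icc u v, lam ≤ g k x ∧ g k x ≤ C * lam) →
      ‖∑ n ∈ Finset.Icc ⌈u⌉ ⌊v⌋, ec (g 0 (n : ℤ))‖ ≤ ε * (v - u)

/-- mean value theorem in the form used here -/
lemma mvt {f f' : ℝ → ℝ} {a b : ℝ} (hab : a < b) (h : ∀ x ∈ Set.Icc a b, HasDerivAt f (f' x) x) :
    ∃ c ∈ Set.Icc a b, f b - f a = f' c * (b - a) := by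
  obtain ⟨c, hc, hc'⟩ := exists_hasDerivAt_eq_slope f f' hab
    (fun x hx => (h x hx).continuousAt.continuousWithinAt)
    (fun x hx => h x (Set.Ioo_subset_Icc_self hx))
  refine ⟨c, Set.Ioo_subset_Icc_self hc, ?_⟩
  have : b - a ≠ 0 := by linarith [sub_pos.2 hab]
  rw [hc']
  field_simp

lemma sign_diff {f f' : ℝ → ℝ} {u v : ℝ} (h : ∀ x ∈ Set.Icc u v, HasDerivAt f (f' x) x)
    (hs : (∀ x ∈ Set.Icc u v, 0 ≤ f' x) ∨ (∀ x ∈ Set.Icc u v, f' x ≤ 0)) :
    (∀ x y, u ≤ x → x ≤ y → y ≤ v → f x ≤ f y) ∨ (∀ x y, u ≤ x → x ≤ y → y ≤ v → f y ≤ f x) := by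
  have key : ∀ x y, u ≤ x → x ≤ y → y ≤ v → ∃ c ∈ Set.Icc u v, f y - f x = f' c * (y - x) := by
    intro x y hx hxy hy
    rcases hxy.eq_or_lt with rfl | hlt
    · exact ⟨x, ⟨hx, hy⟩, by simp⟩
    · obtain ⟨c, hc, hc'⟩ := mvt hlt (f := f) (f' := f')
        (fun t ht => h t ⟨hx.trans ht.1, ht.2.trans hy⟩)
      exact ⟨c, ⟨hx.trans hc.1, hc.2.trans hy⟩, hc'⟩
  rcases hs with hs | hs
  · left
    intro x y hx hxy hy
    obtain ⟨c, hc, hc'⟩ := key x y hx hxy hy
    have := mul_nonneg (hs c hc) (sub_nonneg.2 hxy)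
    linarith
  · right
    intro x y hx hxy hy
    obtain ⟨c, hc, hc'⟩ := key x y hx hxy hy
    have := mul_nonneg (neg_nonneg.2 (hs c hc)) (sub_nonneg.2 hxy)
    linarith

lemma base (C ε : ℝ) (hC : 1 ≤ C) (hε : 0 < ε) : ∃ δ : ℝ, 0 < δ ∧ Prop' 1 C ε δ := by
  refine ⟨min 1 (min (ε / 3) (min (1 / (7 * C)) (ε / (21 * C)))), by positivity, ?_⟩
  intro g u v lam hlam hlamδ huv hlarge hder hsign hbd
  set δ := min 1 (min (ε / 3) (min (1 / (7 * C)) (ε / (21 * C)))) with hδ
  have hδ0 : 0 < δ := by rw [hδ]; positivity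
  have hδ1 : δ ≤ 1 := min_le_left _ _
  have hδ2 : δ ≤ ε / 3 := (min_le_right _ _).trans (min_le_left _ _)
  have hδ3 : δ ≤ 1 / (7 * C) :=
    ((min_le_right _ _).trans (min_le_right _ _)).trans (min_le_left _ _)
  have hδ4 : δ ≤ ε / (21 * C) :=
    ((min_le_right _ _).trans (min_le_right _ _)).trans (min_le_right _ _)
  have hC0 : 0 < C := by linarith
  set L := v - u with hL
  have hL0 : 0 < L := by linarith
  rw [pow_one] at hlarge
  have hΛ : C * lam ≤ 1 / 7 := by
    have : C * lam ≤ C * (1 / (7 * C)) := mul_le_mul_of_nonneg_left (hlamδ.trans hδ3) hC0.le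
    refine this.trans (le_of_eq ?_)
    field_simp
  have hone : 1 ≤ ε / 3 * L := by
    calc 1 ≤ δ * (lam * L) := hlarge
      _ ≤ δ * (1 * L) := by
        apply mul_le_mul_of_nonneg_left _ hδ0.le
        exact mul_le_mul_of_nonneg_right (hlamδ.trans hδ1) hL0.le
      _ ≤ ε / 3 * L := by rw [one_mul]; exact mul_le_mul_of_nonneg_right hδ2 hL0.le
  have hinv : 1 / lam ≤ ε / 3 * L := by
    rw [div_le_iff₀ hlam]
    calc 1 ≤ δ * (lam * L) := hlarge
      _ ≤ ε / 3 * (lam * L) := mul_le_mul_of_nonneg_right hδ2 (by positivity)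
      _ = ε / 3 * L * lam := by ring
  rcases lt_or_ge ⌊v⌋ ⌈u⌉ with hemp | hnem
  · rw [Finset.Icc_eq_empty (by omega)]
    simp only [Finset.sum_empty, norm_zero]
    positivity
  · obtain ⟨N, hN⟩ : ∃ N : ℕ, ⌊v⌋ = ⌈u⌉ + N := ⟨(⌊v⌋ - ⌈u⌉).toNat, by omega⟩
    have hM : u ≤ (⌈u⌉ : ℝ) := Int.le_ceil u
    have hV : ((⌈u⌉ : ℝ) + N) ≤ v := by
      have := Int.floor_le v
      rw [hN] at this
      push_cast at this
      exact this
    set a : ℕ → ℝ := fun j => g 0 ((⌈u⌉ : ℝ) + j) with ha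
    have hsum : ∑ n ∈ Finset.Icc ⌈u⌉ ⌊v⌋, ec (g 0 (n : ℤ)) = ∑ j ∈ range (N + 1), ec (a j) := by
      rw [hN]
      symm
      apply Finset.sum_bij (fun (j : ℕ) _ => ⌈u⌉ + (j : ℤ))
      · intro j hj; rw [mem_range] at hj; rw [Finset.mem_Icc]; omega
      · intro j _ j' _ h; omega
      · intro n hn; rw [Finset.mem_Icc] at hn
        exact ⟨(n - ⌈u⌉).toNat, by rw [mem_range]; omega, by omega⟩
      · intro j _
        simp only [ha]
        push_cast
        rfl
    have hmem : ∀ j : ℕ, j ≤ N → (⌈u⌉ : ℝ) + j ∈ Set.Icc u v := by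
      intro j hj
      have : (j : ℝ) ≤ N := by exact_mod_cast hj
      have h0 : (0 : ℝ) ≤ j := by positivity
      exact ⟨by linarith, by linarith⟩
    have hd : ∀ n < N, lam ≤ a (n + 1) - a n ∧ a (n + 1) - a n ≤ C * lam := by
      intro n hn
      obtain ⟨c, hc, hc'⟩ := mvt (f := g 0) (f' := g 1) (a := (⌈u⌉ : ℝ) + n)
        (b := (⌈u⌉ : ℝ) + (n + 1 : ℕ)) (by push_cast; linarith)
        (fun x hx => hder 0 (by norm_num) x
          ⟨(hmem n hn.le).1.trans hx.1, hx.2.trans (hmem (n + 1) (by omega)).2⟩)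
      have h1 : a (n + 1) - a n = g 1 c := by
        simp only [ha]
        rw [hc']; push_cast; ring
      rw [h1]
      exact hbd c ⟨(hmem n hn.le).1.trans hc.1, hc.2.trans (hmem (n + 1) (by omega)).2⟩
    have hmono : (∀ n, n + 1 < N → a (n + 1) - a n ≤ a (n + 2) - a (n + 1)) ∨
      (∀ n, n + 1 < N → a (n + 2) - a (n + 1) ≤ a (n + 1) - a n) := by
      have key : ∀ n, n + 1 < N → ∃ c, u ≤ c ∧ c + 1 ≤ v ∧
          (a (n + 2) - a (n + 1)) - (a (n + 1) - a n) = g 1 (c + 1) - g 1 c := by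
        intro n hn
        have hn1 := hmem n (by omega)
        have hn2 := hmem (n + 2) (by omega)
        push_cast at hn2
        obtain ⟨c, hc, hc'⟩ := mvt (f := fun x => g 0 (x + 1) - g 0 x)
          (f' := fun x => g 1 (x + 1) - g 1 x) (a := (⌈u⌉ : ℝ) + n)
          (b := (⌈u⌉ : ℝ) + n + 1) (by linarith)
          (fun x hx => by
            have h1 := hder 0 (by norm_num) (x + 1) ⟨by linarith [hx.1, hn1.1],
              by linarith [hx.2, hn2.2]⟩
            have h2 := hder 0 (by norm_num) x ⟨by linarith [hx.1, hn1.1],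
              by linarith [hx.2, hn2.2]⟩
            have h3 : HasDerivAt (fun x => g 0 (x + 1)) (g 1 (x + 1)) x := by
              simpa using h1.comp_add_const x 1
            exact h3.sub h2)
        refine ⟨c, by linarith [hc.1, hn1.1], by linarith [hc.2, hn2.2], ?_⟩
        have e1 : (⌈u⌉ : ℝ) + ((n + 2 : ℕ) : ℝ) = (⌈u⌉ : ℝ) + n + 1 + 1 := by push_cast; ring
        have e2 : (⌈u⌉ : ℝ) + ((n + 1 : ℕ) : ℝ) = (⌈u⌉ : ℝ) + n + 1 := by push_cast; ring
        simp only [ha]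
        rw [e1, e2]
        linarith
      rcases sign_diff (hder 1 le_rfl) hsign with h | h
      · left
        intro n hn
        obtain ⟨c, h1, h2, h3⟩ := key n hn
        have := h c (c + 1) h1 (by linarith) h2
        linarith
      · right
        intro n hn
        obtain ⟨c, h1, h2, h3⟩ := key n hn
        have := h c (c + 1) h1 (by linarith) h2
        linarith
    have hmain := base_seq a N lam (C * lam) hlam hΛ hd hmono
    rw [hsum, Finset.sum_range_succ]
    have hNL : (N : ℝ) ≤ L := by rw [hL]; linarith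
    have hlast : (N : ℝ) * (7 * (C * lam)) ≤ ε / 3 * L := by
      have h1 : 7 * (C * lam) ≤ ε / 3 := by
        have : C * lam ≤ C * (ε / (21 * C)) := mul_le_mul_of_nonneg_left (hlamδ.trans hδ4) hC0.le
        have e : C * (ε / (21 * C)) = ε / 21 := by field_simp
        rw [e] at this
        linarith
      calc (N : ℝ) * (7 * (C * lam)) ≤ L * (ε / 3) :=
            mul_le_mul hNL h1 (by positivity) hL0.le
        _ = ε / 3 * L := by ring
    refine (norm_add_le _ _).trans ?_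
    rw [norm_ec]
    linarith

lemma step (k : ℕ) (hk : 1 ≤ k) (C : ℝ)
    (ih : ∀ ε : ℝ, 0 < ε → ∃ δ : ℝ, 0 < δ ∧ Prop' k C ε δ) (ε : ℝ) (hε : 0 < ε) :
    ∃ δ : ℝ, 0 < δ ∧ Prop' (k + 1) C ε δ := by
  obtain ⟨δ₁, hδ₁0, hδ₁⟩ := ih (ε ^ 2 / 6) (by positivity)
  set J : ℕ := ⌈12 / ε ^ 2⌉₊ + 1 with hJ
  have hJ1 : 1 ≤ J := by omega
  have hJ0 : (0 : ℝ) < J := by exact_mod_cast hJ1
  have hJε : 12 / ε ^ 2 ≤ J := by
    have := Nat.le_ceil (12 / ε ^ 2)
    rw [hJ]; push_cast; linarith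
  have hJε' : 12 / (J : ℝ) ≤ ε ^ 2 := by
    rw [div_le_iff₀ hJ0]
    rw [div_le_iff₀ (by positivity)] at hJε
    linarith
  set R : ℝ := 2 * J + 4 * J / δ₁ ^ 2 with hR
  have hR0 : 0 < R := by rw [hR]; positivity
  have hJR : (1 : ℝ) ≤ J := by exact_mod_cast hJ1
  have hR2 : 2 * (J : ℝ) ≤ R := by
    have : 0 ≤ 4 * J / δ₁ ^ 2 := by positivity
    linarith
  refine ⟨min 1 (min ((1 / R) ^ (k + 1)) (min (δ₁ / J) (δ₁ / (4 * J * 2 ^ k)))), by positivity, ?_⟩
  intro g u v lam hlam hlamδ huv hlarge hder hsign hbd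
  set δ := min 1 (min ((1 / R) ^ (k + 1)) (min (δ₁ / J) (δ₁ / (4 * J * 2 ^ k)))) with hδ
  have hδ0 : 0 < δ := by rw [hδ]; positivity
  have hd1 : δ ≤ 1 := min_le_left _ _
  have hd2 : δ ≤ (1 / R) ^ (k + 1) := (min_le_right _ _).trans (min_le_left _ _)
  have hd3 : δ ≤ δ₁ / J := ((min_le_right _ _).trans (min_le_right _ _)).trans (min_le_left _ _)
  have hd4 : δ ≤ δ₁ / (4 * J * 2 ^ k) :=
    ((min_le_right _ _).trans (min_le_right _ _)).trans (min_le_right _ _)
  set L := v - u with hL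
  have hL0 : 0 < L := by linarith
  -- L is large
  have hLR : R ≤ L := by
    by_contra hcon
    push Not at hcon
    have h1 : L ^ (k + 1) < R ^ (k + 1) := pow_lt_pow_left₀ hcon hL0.le (by omega)
    have h2 : δ * (lam * L ^ (k + 1)) < 1 := by
      calc δ * (lam * L ^ (k + 1)) ≤ (1 / R) ^ (k + 1) * (1 * L ^ (k + 1)) := by
            apply mul_le_mul hd2 _ (by positivity) (by positivity)
            exact mul_le_mul_of_nonneg_right (hlamδ.trans hd1) (by positivity)
        _ < (1 / R) ^ (k + 1) * (1 * R ^ (k + 1)) := by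
            apply mul_lt_mul_of_pos_left _ (by positivity)
            linarith
        _ = 1 := by rw [one_mul, ← mul_pow, one_div, inv_mul_cancel₀ hR0.ne', one_pow]
    linarith
  have hL2J : 2 * (J : ℝ) ≤ L := hR2.trans hLR
  have hL1 : 2 ≤ L := by linarith
  -- choice of D
  set Dr : ℝ := min (L / (2 * J)) (δ₁ / (J * lam)) with hDr
  have hDr1 : 1 ≤ Dr := by
    rw [hDr, le_min_iff]
    constructor
    · rw [le_div_iff₀ (by positivity)]; linarith
    · rw [le_div_iff₀ (by positivity)]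
      have : lam ≤ δ₁ / J := hlamδ.trans hd3
      rw [le_div_iff₀ hJ0] at this
      linarith
  set D : ℕ := ⌊Dr⌋₊ with hD
  have hDle : (D : ℝ) ≤ Dr := Nat.floor_le (by linarith)
  have hD1 : 1 ≤ D := Nat.one_le_floor_iff _ |>.2 hDr1
  have hD1' : (1 : ℝ) ≤ D := by exact_mod_cast hD1
  have hDge : Dr / 2 ≤ D := by
    have := Nat.lt_floor_add_one Dr
    rw [← hD] at this
    linarith
  have hJD : (J : ℝ) * D ≤ L / 2 := by
    have h1 : (D : ℝ) ≤ L / (2 * J) := hDle.trans (min_le_left _ _)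
    rw [le_div_iff₀ (by positivity)] at h1
    linarith
  have hJDlam : (J : ℝ) * D * lam ≤ δ₁ := by
    have h1 : (D : ℝ) ≤ δ₁ / (J * lam) := hDle.trans (min_le_right _ _)
    rw [le_div_iff₀ (by positivity)] at h1
    linarith
  have hbig : 1 ≤ δ₁ * (D * lam * (L / 2) ^ k) := by
    have hcases : L / (4 * J) ≤ D ∨ δ₁ / (2 * J * lam) ≤ D := by
      rcases min_choice (L / (2 * J)) (δ₁ / (J * lam)) with h | h
      · left
        refine le_trans (le_of_eq ?_) hDge
        rw [hDr, h]; field_simp; ring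
      · right
        refine le_trans (le_of_eq ?_) hDge
        rw [hDr, h]; field_simp
    rcases hcases with h | h
    · calc (1 : ℝ) ≤ δ * (lam * L ^ (k + 1)) := hlarge
        _ ≤ δ₁ / (4 * J * 2 ^ k) * (lam * L ^ (k + 1)) :=
          mul_le_mul_of_nonneg_right hd4 (by positivity)
        _ = δ₁ * (L / (4 * J) * lam * (L / 2) ^ k) := by
          rw [div_pow]; field_simp; ring
        _ ≤ δ₁ * (D * lam * (L / 2) ^ k) := by
          apply mul_le_mul_of_nonneg_left _ hδ₁0.le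
          apply mul_le_mul_of_nonneg_right _ (by positivity)
          exact mul_le_mul_of_nonneg_right h hlam.le
    · have hLk : L / 2 ≤ (L / 2) ^ k := le_self_pow₀ (by linarith) (by omega)
      have hLR' : 4 * J / δ₁ ^ 2 ≤ L := by
        have : 0 ≤ 2 * (J : ℝ) := by positivity
        linarith
      calc (1 : ℝ) = δ₁ * (δ₁ / (2 * J * lam) * lam * ((4 * J / δ₁ ^ 2) / 2)) := by
            field_simp; ring
        _ ≤ δ₁ * (D * lam * (L / 2) ^ k) := by
          apply mul_le_mul_of_nonneg_left _ hδ₁0.le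
          apply mul_le_mul _ _ (by positivity) (by positivity)
          · exact mul_le_mul_of_nonneg_right h hlam.le
          · exact le_trans (by linarith) hLk
  -- correlations
  set f : ℤ → ℂ := fun n => ec (g 0 (n : ℝ)) with hf
  have hcorr : ∀ j : ℕ, 1 ≤ j → j < J →
      ‖∑ n ∈ Icc ⌈u⌉ (⌊v⌋ - (j : ℤ) * D), f (n + (j : ℤ) * D) * conj (f n)‖ ≤ ε ^ 2 / 6 * L := by
    intro j hj1 hjJ
    set h : ℝ := (j : ℝ) * D with hh
    have hj1' : (1 : ℝ) ≤ j := by exact_mod_cast hj1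
    have hjJ' : (j : ℝ) ≤ J := by exact_mod_cast hjJ.le
    have hDh : (D : ℝ) ≤ h := by rw [hh]; nlinarith
    have h0 : 0 < h := by linarith
    have hhJ : h ≤ J * D := by rw [hh]; exact mul_le_mul_of_nonneg_right hjJ' (by positivity)
    have hhL : h ≤ L / 2 := hhJ.trans hJD
    have hmem1 : ∀ x ∈ Set.Icc u (v - h), x ∈ Set.Icc u v := fun x hx => ⟨hx.1, by linarith [hx.2]⟩
    have hmem2 : ∀ x ∈ Set.Icc u (v - h), x + h ∈ Set.Icc u v :=
      fun x hx => ⟨by linarith [hx.1], by linarith [hx.2]⟩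
    have hfinal := hδ₁ (fun i x => g i (x + h) - g i x) u (v - h) (h * lam) (by positivity)
      ((mul_le_mul_of_nonneg_right hhJ hlam.le).trans hJDlam) (by linarith)
      (by
        refine hbig.trans ?_
        apply mul_le_mul_of_nonneg_left _ hδ₁0.le
        apply mul_le_mul _ _ (by positivity) (by positivity)
        · exact mul_le_mul_of_nonneg_right hDh hlam.le
        · exact pow_le_pow_left₀ (by positivity) (by linarith) k)
      (by
        intro i hi x hx
        have e1 := hder i (by omega) (x + h) (hmem2 x hx)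
        have e2 := hder i (by omega) x (hmem1 x hx)
        have e3 : HasDerivAt (fun x => g i (x + h)) (g (i + 1) (x + h)) x := by
          simpa using e1.comp_add_const x h
        exact e3.sub e2)
      (by
        rcases sign_diff (hder (k + 1) le_rfl) hsign with hm | hm
        · left
          intro x hx
          have := hm x (x + h) hx.1 (by linarith) (hmem2 x hx).2
          linarith
        · right
          intro x hx
          have := hm x (x + h) hx.1 (by linarith) (hmem2 x hx).2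
          linarith)
      (by
        intro x hx
        obtain ⟨c, hc, hc'⟩ := mvt (f := g k) (f' := g (k + 1)) (a := x) (b := x + h)
          (by linarith)
          (fun t ht => hder k (by omega) t ⟨hx.1.trans ht.1, ht.2.trans (hmem2 x hx).2⟩)
        have hc2 := hbd c ⟨hx.1.trans hc.1, hc.2.trans (hmem2 x hx).2⟩
        rw [hc']
        have e : x + h - x = h := by ring
        rw [e]
        have m1 := mul_le_mul_of_nonneg_left hc2.1 h0.le
        have m2 := mul_le_mul_of_nonneg_left hc2.2 h0.le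
        constructor
        · rw [mul_comm (g (k + 1) c)]; exact m1
        · rw [mul_comm (g (k + 1) c)]; refine m2.trans (le_of_eq ?_); ring)
    have hfloor : ⌊v - h⌋ = ⌊v⌋ - (j : ℤ) * D := by
      have : h = (((j : ℤ) * D : ℤ) : ℝ) := by rw [hh]; push_cast; ring
      rw [this, Int.floor_sub_intCast]
    rw [hfloor] at hfinal
    have hsumeq : ∑ n ∈ Icc ⌈u⌉ (⌊v⌋ - (j : ℤ) * D), f (n + (j : ℤ) * D) * conj (f n) =
        ∑ n ∈ Icc ⌈u⌉ (⌊v⌋ - (j : ℤ) * D), ec (g 0 ((n : ℤ) + h) - g 0 (n : ℤ)) := by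
      apply Finset.sum_congr rfl
      intro n _
      simp only [hf]
      rw [sub_eq_add_neg, ec_add, ec_neg]
      congr 3
      rw [hh]; push_cast; ring
    rw [hsumeq]
    refine hfinal.trans ?_
    apply mul_le_mul_of_nonneg_left _ (by positivity)
    linarith
  have hvdc := vdc_int ⌈u⌉ ⌊v⌋ f (fun n => (norm_ec _).le) J D hJ1 (ε ^ 2 / 6 * L) (by positivity)
    hcorr
  have hcard : ((Icc ⌈u⌉ ⌊v⌋).card : ℝ) ≤ 2 * L := by
    have h1 : ((Icc ⌈u⌉ ⌊v⌋).card : ℝ) ≤ L + 1 := by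
      rw [Int.card_Icc]
      rcases le_or_gt 0 (⌊v⌋ + 1 - ⌈u⌉) with hc | hc
      · have e : (((⌊v⌋ + 1 - ⌈u⌉).toNat : ℕ) : ℝ) = ((⌊v⌋ + 1 - ⌈u⌉ : ℤ) : ℝ) := by
          exact_mod_cast Int.toNat_of_nonneg hc
        rw [e]
        push_cast
        have := Int.floor_le v
        have := Int.le_ceil u
        linarith
      · rw [Int.toNat_of_nonpos hc.le]
        simp only [CharP.cast_eq_zero]
        linarith
    linarith
  have hsq : ‖∑ n ∈ Icc ⌈u⌉ ⌊v⌋, f n‖ ^ 2 ≤ (ε * L) ^ 2 := by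
    refine hvdc.trans ?_
    calc (((Icc ⌈u⌉ ⌊v⌋).card : ℝ) + J * D) * (((Icc ⌈u⌉ ⌊v⌋).card : ℝ) / J + ε ^ 2 / 6 * L)
        ≤ (3 * L) * (2 * L / J + ε ^ 2 / 6 * L) := by
          apply mul_le_mul _ _ (by positivity) (by positivity)
          · linarith
          · gcongr
      _ = L ^ 2 * (12 / J) / 2 + ε ^ 2 / 2 * L ^ 2 := by
          field_simp; ring
      _ ≤ L ^ 2 * ε ^ 2 / 2 + ε ^ 2 / 2 * L ^ 2 := by
          gcongr
      _ = (ε * L) ^ 2 := by ring
  exact le_of_sq_le_sq hsq (by positivity)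

end ExpSum

/-- REC-13a: van der Corput derivative test -/
theorem expsum (k : ℕ) (hk : 1 ≤ k) (C ε : ℝ) (hC : 1 ≤ C) (hε : 0 < ε) :
    ∃ δ : ℝ, 0 < δ ∧ ∀ (g : ℕ → ℝ → ℝ) (u v lam : ℝ), 0 < lam → lam ≤ δ → u < v →
      1 ≤ δ * (lam * (v - u) ^ k) →
      (∀ i ≤ k, ∀ x ∈ Set.Icc u v, HasDerivAt (g i) (g (i + 1) x) x) →
      ((∀ x ∈ Set.Icc u v, 0 ≤ g (k + 1) x) ∨ (∀ x ∈ Set.Icc u v, g (k + 1) x ≤ 0)) →
      (∀ x ∈ Set.Icc u v, lam ≤ g k x ∧ g k x ≤ C * lam) →
      ‖∑ n ∈ Finset.Icc ⌈u⌉ ⌊v⌋, ec (g 0 (n : ℤ))‖ ≤ ε * (v - u) := by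
  suffices h : ∀ ε : ℝ, 0 < ε → ∃ δ : ℝ, 0 < δ ∧ ExpSum.Prop' k C ε δ from h ε hε
  induction k, hk using Nat.le_induction with
  | base => exact fun ε hε => ExpSum.base C ε hC hε
  | succ k hk ih => exact fun ε hε => ExpSum.step k hk C ih ε hε

end Pool.Agent.Helper50.Rec

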